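import Pool.Agent.Q138.Mk.Contr

/-!
# Completeness from contraction by affine transformations

The Markus conjecture says that a closed affine manifold with parallel volume is complete. Let `X`
be a cover of such a manifold `Γ \ X`, with developing map `dev : X → E`. An automorphism of `X` is a
homeomorphism of `X` that becomes an affine transformation of `E` under the developing map, for
instance a deck transformation, or a lift of an affine transformation of the manifold.

A vector `v` is contracted at the point `x` modulo a subspace `S`, if there are automorphisms `f` of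
`X` that keep `f x` in a compact set and whose derivatives move `v` arbitrarily close to `S`. We show
that the manifold is complete if there is a chain `0 = S 0, S 1, …, S m` of subspaces of `E` such that

* for every `i < m`, either the linear holonomy of a subgroup `K` of finite index is bounded on
  `S (i + 1)` modulo `S i`, or all vectors of `S (i + 1)` are contracted modulo `S i` at all points,
* either `S m` has codimension at most one, or `S m` is invariant and the linear holonomy of `K`
  modulo `S m` is expanding: when it is large, its inverse is small.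
-/

set_option autoImplicit false

open Set Filter Topology

namespace Pool.Agent.Results.MP_df2bd8_gt.ContractedDirections

/-- A closed affine manifold `Γ \ X` with parallel volume, modelled on the vector space `E`: the
group `Γ` acts on `X` properly discontinuously and with compact quotient, the developing map `dev`
is a local homeomorphism to `E` that is equivariant with respect to the affine holonomy `hol`, and
the holonomy preserves volume. -/
structure ClosedSpecial (X Γ E : Type) [TopologicalSpace X] [Group Γ] [MulAction Γ X]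
    [NormedAddCommGroup E] [NormedSpace ℝ E] (dev : X → E) (hol : Γ →* (E ≃ᵃ[ℝ] E)) : Prop where
  /-- the developing map is a local homeomorphism -/
  loc : IsLocalHomeomorph dev
  /-- the group acts by homeomorphisms -/
  cont : ∀ γ : Γ, Continuous fun x : X => γ • x
  /-- the developing map is equivariant -/
  equi : ∀ (γ : Γ) (x : X), dev (γ • x) = hol γ (dev x)
  /-- the holonomy preserves volume -/
  unimod : ∀ γ : Γ, |LinearMap.det ((hol γ).linear : E →ₗ[ℝ] E)| = 1
  /-- the action is properly discontinuous -/
  pd : ∀ C : Set X, IsCompact C → {γ : Γ | ∃ x ∈ C, γ • x ∈ C}.Finite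
  /-- the quotient is compact -/
  cc : ∃ C : Set X, IsCompact C ∧ ∀ x : X, ∃ γ : Γ, ∃ k ∈ C, γ • k = x

variable {X Γ E : Type} [TopologicalSpace X] [Group Γ] [MulAction Γ X] [NormedAddCommGroup E]
  [NormedSpace ℝ E]

/-- The vector `v` is contracted at `x` modulo `S`: there is a compact set `C` such that for every
`ε > 0` some automorphism `(f, T)` of the affine structure of `X` satisfies `f x ∈ C` and moves `v`
to distance less than `ε` from `S`. -/
def Contracted (dev : X → E) (S : Submodule ℝ E) (x : X) (v : E) : Prop :=
  ∃ C : Set X, IsCompact C ∧ ∀ ε : ℝ, 0 < ε → ∃ (f : X ≃ₜ X) (T : E ≃ᵃ[ℝ] E),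
    (∀ z, dev (f z) = T (dev z)) ∧ f x ∈ C ∧ ∃ w ∈ S, ‖T.linear v - w‖ < ε

/-- The linear holonomy of `K` is bounded on `S'` modulo `S`. -/
def Bounded (hol : Γ →* (E ≃ᵃ[ℝ] E)) (K : Subgroup Γ) (S S' : Submodule ℝ E) : Prop :=
  ∃ C : ℝ, ∀ γ ∈ K, ∀ v ∈ S', ∃ w ∈ S, ‖(hol γ).linear v - w‖ ≤ C * ‖v‖

/-- The affine map `T` has linear part of norm at most `r` modulo `S`. -/
def NormLe (S : Submodule ℝ E) (T : E ≃ᵃ[ℝ] E) (r : ℝ) : Prop :=
  ∀ v, ∃ w ∈ S, ‖T.linear v - w‖ ≤ r * ‖v‖

/-- `S` is invariant and the linear holonomy of `K` modulo `S` is expanding: if the norm of an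
element is large then the norm of its inverse is small. -/
def Expanding (hol : Γ →* (E ≃ᵃ[ℝ] E)) (K : Subgroup Γ) (S : Submodule ℝ E) : Prop :=
  (∀ γ ∈ K, ∀ v ∈ S, (hol γ).linear v ∈ S) ∧
    ∀ ε : ℝ, 0 < ε → ∃ R : ℝ, ∀ γ ∈ K, ¬ NormLe S (hol γ) R → NormLe S (hol γ⁻¹) ε

/-- **Theorem.** Let `Γ \ X` be a closed affine manifold with parallel volume, with `X` connected,
and let `K` be a subgroup of finite index of `Γ`. Let `0 = S 0, S 1, …, S m` be subspaces of
`E` such that for every `i < m` the linear holonomy of `K` is bounded on `S (i + 1)` modulo `S i` or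
all vectors of `S (i + 1)` are contracted modulo `S i` at all points of `X`. If `S m` has codimension
at most one, or is invariant with expanding linear holonomy of `K` modulo `S m`, then the affine
structure is complete: the developing map is a homeomorphism. -/
theorem result [T2Space X] [SecondCountableTopology X] [ConnectedSpace X] [FiniteDimensional ℝ E]
    {dev : X → E} {hol : Γ →* (E ≃ᵃ[ℝ] E)} (D : ClosedSpecial X Γ E dev hol)
    (K : Subgroup Γ) (hK : K.FiniteIndex) (S : ℕ → Submodule ℝ E) (m : ℕ) (h0 : S 0 = ⊥)
    (hS : ∀ i < m, Bounded hol K (S i) (S (i + 1)) ∨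
      ∀ v ∈ S (i + 1), ∀ x, Contracted dev (S i) x v)
    (hE : Module.finrank ℝ E ≤ Module.finrank ℝ (S m) + 1 ∨ Expanding hol K (S m)) :
    IsHomeomorph dev := by
  have D0 : Pool.Agent.W689.Mk.AffData X Γ E dev hol :=
    ⟨D.loc, D.cont, D.equi, D.unimod, D.pd, D.cc⟩
  have D1 := Pool.Agent.Y449.MK.restrict D0 K hK
  have h1 := Pool.Agent.Q138.Mk.mixed_chain D1 S m h0 fun i hi => by
    rcases hS i hi with h | h
    · obtain ⟨C, hC⟩ := h
      exact Or.inl ⟨C, fun γ v hv => hC γ.1 γ.2 v hv⟩
    · exact Or.inr h
  rcases hE with h | ⟨h, h'⟩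
  · exact Pool.Agent.Q138.Mk.codim_one D1 h1 h
  · refine Pool.Agent.Q138.Mk.exp_mod D1 h1 (fun γ v hv => h γ.1 γ.2 v hv) fun ε hε => ?_
    obtain ⟨R, hR⟩ := h' ε hε
    exact ⟨R, fun γ hγ => hR γ.1 γ.2 hγ⟩

end Pool.Agent.Results.MP_df2bd8_gt.ContractedDirections
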