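import Pool.Agent.Q138.Mk.Equi

/-!
# Equivariant maps into the affine space of a closed special affine manifold

The Markus conjecture says that a closed affine manifold with parallel volume is complete. Let
`Γ \ X` be such a manifold, of dimension `n`, without any assumption on completeness, and let `E` be
the affine space, on which `Γ` acts by the holonomy.

* Every locally Lipschitz equivariant map from `X` to `E` has image of positive measure.
* Let `Γ` act by affine maps on a normed space `W` of any (possibly infinite) dimension, and let
  `C ⊆ W` be nonempty, convex and invariant. Every locally Lipschitz equivariant map `C → E` has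
  image of positive measure, and the dimension of `W` is at least `n`. For a subspace `C = W ⊆ E` this
  is the theorem of Goldman and Hirsch that `Γ` has no proper invariant affine subspace.
* Every equivariant `C¹` map from `X` to `E` whose Jacobian determinant is `≤ 1` at all points (or
  `≥ 1` at all points) has Jacobian determinant `1` and is the developing map of another closed
  special affine manifold with the same holonomy.
-/

set_option autoImplicit false

open Set Filter Topology Asymptotics MeasureTheory

namespace Pool.Agent.Results.MP_df2bd8_gt.EquivariantMaps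

/-- A closed affine manifold `Γ \ X` with parallel volume, modelled on the vector space `E`: the
group `Γ` acts on `X` properly discontinuously and with compact quotient, the developing map `dev`
is a local homeomorphism to `E` that is equivariant with respect to the affine holonomy `hol`, and
the holonomy preserves volume. -/
structure ClosedSpecial (X Γ E : Type) [TopologicalSpace X] [Group Γ] [MulAction Γ X]
    [NormedAddCommGroup E] [NormedSpace ℝ E] (dev : X → E) (hol : Γ →* (E ≃ᵃ[ℝ] E)) : Prop where
  /-- the developing map is a local homeomorphism -/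
  loc : IsLocalHomeomorph dev
  /-- the group acts by homeomorphisms -/
  cont : ∀ γ : Γ, Continuous fun x : X => γ • x
  /-- the developing map is equivariant -/
  equi : ∀ (γ : Γ) (x : X), dev (γ • x) = hol γ (dev x)
  /-- the holonomy preserves volume -/
  unimod : ∀ γ : Γ, |LinearMap.det ((hol γ).linear : E →ₗ[ℝ] E)| = 1
  /-- the action is properly discontinuous -/
  pd : ∀ C : Set X, IsCompact C → {γ : Γ | ∃ x ∈ C, γ • x ∈ C}.Finite
  /-- the quotient is compact -/
  cc : ∃ C : Set X, IsCompact C ∧ ∀ x : X, ∃ γ : Γ, ∃ k ∈ C, γ • k = x

variable {X Γ E : Type} [TopologicalSpace X] [Group Γ] [MulAction Γ X] [NormedAddCommGroup E]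
  [NormedSpace ℝ E]

/-- `F` is locally Lipschitz with respect to the affine structure of `X`. -/
def LocLip (dev F : X → E) : Prop :=
  ∀ x, ∃ U ∈ 𝓝 x, ∃ L : ℝ, 0 ≤ L ∧ ∀ y ∈ U, ∀ z ∈ U, ‖F y - F z‖ ≤ L * ‖dev y - dev z‖

/-- `F` is `C¹` with respect to the affine structure of `X`, with derivative `B x` at `x`. -/
def C1 (dev F : X → E) (B : X → E →L[ℝ] E) : Prop :=
  Continuous B ∧ ∀ x, (fun y => F y - F x - B x (dev y - dev x)) =o[𝓝 x] fun y => dev y - dev x

/-- `F : X → E` is equivariant with respect to the holonomy. -/
def Equi (hol : Γ →* (E ≃ᵃ[ℝ] E)) (F : X → E) : Prop :=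
  ∀ (γ : Γ) (x : X), F (γ • x) = hol γ (F x)

/-- `Γ` acts by affine maps on `W`, the set `C` is nonempty, convex and invariant, and `f` is a
locally Lipschitz equivariant map from `C` to `E`. -/
structure EquiOn {W : Type} [NormedAddCommGroup W] [NormedSpace ℝ W]
    (hol : Γ →* (E ≃ᵃ[ℝ] E)) (a : Γ →* (W ≃ᵃ[ℝ] W)) (C : Set W) (f : W → E) : Prop where
  /-- `C` is convex -/
  convex : Convex ℝ C
  /-- `C` is nonempty -/
  nonempty : C.Nonempty
  /-- `C` is invariant -/
  inv : ∀ γ, ∀ w ∈ C, a γ w ∈ C
  /-- `f` is locally Lipschitz on `C` -/
  lip : LocallyLipschitzOn C f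
  /-- `f` is equivariant on `C` -/
  equi : ∀ γ, ∀ w ∈ C, f (a γ w) = hol γ (f w)

/-- Every locally Lipschitz equivariant map from a convex set with an affine action of `Γ` has image
of positive measure and its source has dimension at least the dimension of `E`. -/
def LargeImages [MeasurableSpace E] (lam : Measure E) (hol : Γ →* (E ≃ᵃ[ℝ] E)) : Prop :=
  ∀ (W : Type) [NormedAddCommGroup W] [NormedSpace ℝ W] (a : Γ →* (W ≃ᵃ[ℝ] W)) (C : Set W)
    (f : W → E), EquiOn hol a C f →
    lam (f '' C) ≠ 0 ∧ (FiniteDimensional ℝ W → Module.finrank ℝ E ≤ Module.finrank ℝ W)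

/-- **Theorem.** Let `Γ \ X` be a closed affine manifold with parallel volume.
(1) Every locally Lipschitz equivariant map `F : X → E` has image of positive measure.
(2) Let `Γ` act by affine maps on a real normed space `W`, let `C ⊆ W` be a nonempty
invariant convex set and let `f : C → E` be locally Lipschitz and equivariant. Then `f (C)` has
positive measure; if `W` is finite-dimensional then the dimension of `W` is at least that of `E`.
(3) Every equivariant `C¹` map `F : X → E` with Jacobian determinant `≤ 1` at all points, or `≥ 1` at
all points, has Jacobian determinant `1` at all points and is a developing map of a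
closed affine manifold with parallel volume, with the same group and holonomy. -/
theorem result [T2Space X] [SecondCountableTopology X] [Nonempty X] [FiniteDimensional ℝ E]
    [MeasurableSpace E] [BorelSpace E] (lam : Measure E) [lam.IsAddHaarMeasure]
    {dev : X → E} {hol : Γ →* (E ≃ᵃ[ℝ] E)} (D : ClosedSpecial X Γ E dev hol) :
    (∀ F : X → E, LocLip dev F → Equi hol F → lam (range F) ≠ 0) ∧
    LargeImages lam hol ∧
    ∀ (F : X → E) (B : X → E →L[ℝ] E), C1 dev F B → Equi hol F →
      ((∀ x, (B x).det ≤ 1) ∨ ∀ x, 1 ≤ (B x).det) →
        (∀ x, (B x).det = 1) ∧ ClosedSpecial X Γ E F hol := by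
  have D' : Pool.Agent.W689.Mk.AffData X Γ E dev hol :=
    ⟨D.loc, D.cont, D.equi, D.unimod, D.pd, D.cc⟩
  refine ⟨fun F hF he => Pool.Agent.Q138.Mk.range_pos lam D' hF he, ?_, ?_⟩
  · rintro W _ _ a C f ⟨hC, hne, hinv, hf, he⟩
    refine ⟨Pool.Agent.Q138.Mk.image_pos lam D' a hC hne hinv hf he, fun hW => ?_⟩
    by_contra hcon
    push Not at hcon
    have : ProperSpace W := FiniteDimensional.proper_real W
    have h1 : dimH (f '' C) ≤ dimH C := dimH_image_le_of_locally_lipschitzOn hf
    have h2 : dimH C ≤ Module.finrank ℝ W :=
      (dimH_mono (subset_univ C)).trans (Real.dimH_univ_eq_finrank W).le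
    have h3 : dimH (f '' C) < ((Module.finrank ℝ E : NNReal) : ENNReal) := by
      refine (h1.trans h2).trans_lt ?_
      exact_mod_cast hcon
    have h4 := hausdorffMeasure_of_dimH_lt h3
    exact Pool.Agent.Q138.Mk.image_pos (μH[Module.finrank ℝ E]) D' a hC hne hinv hf he h4
  · rintro F B ⟨hB, h⟩ he hs
    have key : (∀ x, (B x).det = 1) ∧ IsLocalHomeomorph F := by
      rcases hs with hs | hs
      · exact Pool.Agent.Q138.Mk.rigid D' he hB h (ε := -1) (by norm_num)
          fun x => by have := hs x; linarith
      · exact Pool.Agent.Q138.Mk.rigid D' he hB h (ε := 1) one_ne_zero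
          fun x => by have := hs x; linarith
    exact ⟨key.1, key.2, D.cont, he, D.unimod, D.pd, D.cc⟩

end Pool.Agent.Results.MP_df2bd8_gt.EquivariantMaps
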