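import Pool.Agent.Y449.MK.Sub
import Pool.Agent.TH845.Mk.Cov

/-!
# Half-spaces and measures for closed affine manifolds with parallel volume

The Markus conjecture says that a closed affine manifold with parallel volume is complete: its
developing map is a homeomorphism onto the affine space. We study how far its holonomy spreads
the affine space over itself, without any assumption on the developing map. Let `n` be the
dimension and let `K` be a subgroup of finite index of the fundamental group.

* Every bounded subset of the affine space is moved into any given open or closed half-space by at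
  most `n + 1` elements of `K`: it is covered by `n + 1` images of the half-space.
* Hence every measure has an image which gives a prescribed half-space almost the fraction
  `1 / (n + 1)` of the total mass, and every invariant measure is infinite on all half-spaces.
* Every σ-finite measure on the affine space is moved to infinity by a sequence in `K`.
-/

set_option autoImplicit false

open Set Filter Topology MeasureTheory
open scoped ENNReal

namespace Pool.Agent.Results.MP_df2bd8_gt.HalfSpaceCoverings

/-- A closed affine manifold `Γ \ X` with parallel volume, modelled on the vector space `E`: the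
group `Γ` acts on `X` properly discontinuously and with compact quotient, the developing map `dev`
is a local homeomorphism to `E` that is equivariant with respect to the affine holonomy `hol`, and
the holonomy preserves volume. -/
structure ClosedSpecial (X Γ E : Type) [TopologicalSpace X] [Group Γ] [MulAction Γ X]
    [NormedAddCommGroup E] [NormedSpace ℝ E] (dev : X → E) (hol : Γ →* (E ≃ᵃ[ℝ] E)) : Prop where
  /-- the developing map is a local homeomorphism -/
  loc : IsLocalHomeomorph dev
  /-- the group acts by homeomorphisms -/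
  cont : ∀ γ : Γ, Continuous fun x : X => γ • x
  /-- the developing map is equivariant -/
  equi : ∀ (γ : Γ) (x : X), dev (γ • x) = hol γ (dev x)
  /-- the holonomy preserves volume -/
  unimod : ∀ γ : Γ, |LinearMap.det ((hol γ).linear : E →ₗ[ℝ] E)| = 1
  /-- the action is properly discontinuous -/
  pd : ∀ C : Set X, IsCompact C → {γ : Γ | ∃ x ∈ C, γ • x ∈ C}.Finite
  /-- the quotient is compact -/
  cc : ∃ C : Set X, IsCompact C ∧ ∀ x : X, ∃ γ : Γ, ∃ k ∈ C, γ • k = x

variable {X Γ E : Type} [TopologicalSpace X] [Group Γ] [MulAction Γ X] [NormedAddCommGroup E]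
  [NormedSpace ℝ E]

/-- Every bounded set is covered by `m` holonomy images of `P`, under elements of `K`. -/
def Covers (hol : Γ →* (E ≃ᵃ[ℝ] E)) (K : Subgroup Γ) (m : ℕ) (P : Set E) : Prop :=
  ∀ B : Set E, Bornology.IsBounded B →
    ∃ s : Finset Γ, (∀ γ ∈ s, γ ∈ K) ∧ s.card ≤ m ∧ B ⊆ ⋃ γ ∈ s, hol γ ⁻¹' P

/-- Properties of a large subset `P` of the affine space of dimension `n`. -/
structure Large [MeasurableSpace E] (hol : Γ →* (E ≃ᵃ[ℝ] E)) (K : Subgroup Γ) (n : ℕ)
    (P : Set E) : Prop where
  /-- bounded sets are covered by `n + 1` images -/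
  cover : Covers hol K (n + 1) P
  /-- every measure is concentrated on some image of `P` up to a factor `n + 1` -/
  mass : ∀ μ : Measure E, μ univ ≤ ((n + 1 : ℕ) : ℝ≥0∞) * ⨆ γ : K, μ (hol γ ⁻¹' P)
  /-- every nonzero `K`-invariant measure is infinite on `P` -/
  inf : ∀ μ : Measure E, μ ≠ 0 →
    (∀ γ ∈ K, ∀ A : Set E, MeasurableSet A → μ (hol γ ⁻¹' A) = μ A) → μ P = ∞

/-- A sequence in `K` moves `μ`-almost every point to infinity. -/
def Escapes [MeasurableSpace E] (hol : Γ →* (E ≃ᵃ[ℝ] E)) (K : Subgroup Γ) (μ : Measure E) :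
    Prop :=
  ∃ g : ℕ → Γ, (∀ k, g k ∈ K) ∧ ∀ᵐ p ∂μ, Tendsto (fun k => ‖hol (g k) p‖) atTop atTop

/-- **Theorem.** Let `Γ \ X` be a closed affine manifold of dimension `n ≥ 1` with parallel volume
and let `K` be a subgroup of finite index of `Γ`. Every open half-space of the affine space is
large, and every σ-finite measure on the affine space is moved to infinity by a sequence in
`K`. -/
theorem result [T2Space X] [SecondCountableTopology X] [Nonempty X] [FiniteDimensional ℝ E]
    [Nontrivial E] [MeasurableSpace E] [BorelSpace E] {dev : X → E} {hol : Γ →* (E ≃ᵃ[ℝ] E)}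
    (D : ClosedSpecial X Γ E dev hol) (K : Subgroup Γ) (hK : K.FiniteIndex) :
    (∀ φ : E →L[ℝ] ℝ, φ ≠ 0 → ∀ a : ℝ, Large hol K (Module.finrank ℝ E) {p | a < φ p}) ∧
    ∀ μ : Measure E, SFinite μ → Escapes hol K μ := by
  have D0 : Pool.Agent.W689.Mk.AffData X Γ E dev hol :=
    ⟨D.loc, D.cont, D.equi, D.unimod, D.pd, D.cc⟩
  have D1 := Pool.Agent.Y449.MK.restrict D0 K hK
  set h := hol.comp K.subtype with hh
  have hstar : ∀ (C : Set E) (p : E), p ∈ C → StarConvex ℝ p C →
      (∀ γ : K, ∀ q ∈ C, h γ q ∈ C) → C = univ := fun C p hp hs hinv =>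
    Pool.Agent.W689.Mk.star_univ D1 hp hs hinv
  have hirr : ∀ C : Set E, Convex ℝ C → C.Nonempty → (∀ γ : K, ∀ p ∈ C, h γ p ∈ C) →
      C = univ := fun C hC ⟨p, hp⟩ hinv => hstar C p hp (hC.starConvex hp) hinv
  have hcov : ∀ φ : E →L[ℝ] ℝ, φ ≠ 0 → ∀ (a : ℝ) (B : Set E), Bornology.IsBounded B →
      ∃ s : Finset K, s.card ≤ Module.finrank ℝ E + 1 ∧
        ∀ q ∈ (⊤ : AffineSubspace ℝ E), q ∈ B → ∃ γ ∈ s, a ≤ φ (h γ q) := by
    intro φ hφ a B hB
    obtain ⟨R, hR⟩ := hB.subset_closedBall 0
    obtain ⟨s, hs1, hs2⟩ := Pool.Agent.TH845.Mk.half_cover h hirr hφ a R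
    exact ⟨s, hs1, fun q _ hq => hs2 q (hR hq)⟩
  refine ⟨fun φ hφ a => ⟨?_, ?_, ?_⟩, fun μ hμ => ?_⟩
  · intro B hB
    obtain ⟨s, hs1, hs2⟩ := hcov φ hφ (a + 1) B hB
    classical
    refine ⟨s.image Subtype.val, ?_, Finset.card_image_le.trans hs1, fun q hq => ?_⟩
    · intro γ hγ
      obtain ⟨δ, -, rfl⟩ := Finset.mem_image.1 hγ
      exact δ.2
    · obtain ⟨γ, hγ, h1⟩ := hs2 q trivial hq
      refine mem_iUnion₂.2 ⟨γ.1, Finset.mem_image_of_mem _ hγ, ?_⟩
      show a < φ (hol γ q)
      have h2 : a + 1 ≤ φ (hol γ q) := h1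
      linarith
  · intro μ
    have h1 := Pool.Agent.TH845.Mk.measure_of_cover (H := ⊤) (hcov φ hφ (a + 1)) μ
    have h2 : ((⊤ : AffineSubspace ℝ E) : Set E) = univ := AffineSubspace.top_coe ℝ E E
    rw [h2] at h1
    refine h1.trans ?_
    gcongr with γ
    intro p hp
    show a < φ (hol γ p)
    have h3 : a + 1 ≤ φ (hol γ p) := hp.2
    linarith
  · intro μ hμ0 hμ
    have h2 : ((⊤ : AffineSubspace ℝ E) : Set E) = univ := AffineSubspace.top_coe ℝ E E
    have h3 := Pool.Agent.TH845.Mk.inv_top (hol := h) (H := ⊤) (μ := μ) (φ := φ)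
      (fun _ _ _ => trivial)
      (fun b => Pool.Agent.TH845.Mk.measure_of_cover (H := ⊤) (hcov φ hφ b) μ)
      (fun γ A hA => hμ γ.1 γ.2 A hA) (by
        rw [h2]
        intro h0
        exact hμ0 (Measure.measure_univ_eq_zero.1 h0)) (a + 1)
    refine top_le_iff.1 (h3.symm.le.trans (measure_mono fun p hp => ?_))
    show a < φ p
    have h4 : a + 1 ≤ φ p := hp.2
    linarith
  · obtain ⟨g, hg⟩ := Pool.Agent.TH845.Mk.escape h (fun C hC1 hC2 hC3 hC4 => by
      have h5 := hirr C hC3 hC1 hC4
      rw [h5] at hC2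
      exact noncompact_univ E hC2) μ
    exact ⟨fun k => (g k).1, fun k => (g k).2, hg⟩

end Pool.Agent.Results.MP_df2bd8_gt.HalfSpaceCoverings
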