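import Pool.Agent.Q138.Mk.Spec

/-!
# The covariant derivatives of vector fields on closed special affine manifolds

The Markus conjecture says that a closed affine manifold with parallel volume is complete. Let `Z`
be a `C¹` vector field on such a manifold, without any assumption on completeness. Its covariant
derivative `∇Z` is an endomorphism of every tangent space. We show that the spectrum of `∇Z` is
never concentrated on one side, except for fields with nilpotent covariant derivative:

* if, for some real number `c ≠ 0`, no complex eigenvalue of `∇Z` at any point lies in the open disc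
  with centre `c` and radius `|c|`, then `∇Z` is nilpotent at every point; in particular this holds
  if all eigenvalues at all points have nonnegative real part;
* if the characteristic polynomial of `∇Z` is the same at all points then `∇Z` is nilpotent;
* if `∇Z` is monotone at every point, for some inner products which may depend arbitrarily on
  the point, then `Z` is parallel.
-/

set_option autoImplicit false

open Set Filter Topology Asymptotics

namespace Pool.Agent.Results.MP_df2bd8_gt.SpectrumOfCovariantDerivative

/-- A closed affine manifold `Γ \ X` with parallel volume, modelled on the vector space `E`: the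
group `Γ` acts on `X` properly discontinuously and with compact quotient, the developing map `dev`
is a local homeomorphism to `E` that is equivariant with respect to the affine holonomy `hol`, and
the holonomy preserves volume. -/
structure ClosedSpecial (X Γ E : Type) [TopologicalSpace X] [Group Γ] [MulAction Γ X]
    [NormedAddCommGroup E] [NormedSpace ℝ E] (dev : X → E) (hol : Γ →* (E ≃ᵃ[ℝ] E)) : Prop where
  /-- the developing map is a local homeomorphism -/
  loc : IsLocalHomeomorph dev
  /-- the group acts by homeomorphisms -/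
  cont : ∀ γ : Γ, Continuous fun x : X => γ • x
  /-- the developing map is equivariant -/
  equi : ∀ (γ : Γ) (x : X), dev (γ • x) = hol γ (dev x)
  /-- the holonomy preserves volume -/
  unimod : ∀ γ : Γ, |LinearMap.det ((hol γ).linear : E →ₗ[ℝ] E)| = 1
  /-- the action is properly discontinuous -/
  pd : ∀ C : Set X, IsCompact C → {γ : Γ | ∃ x ∈ C, γ • x ∈ C}.Finite
  /-- the quotient is compact -/
  cc : ∃ C : Set X, IsCompact C ∧ ∀ x : X, ∃ γ : Γ, ∃ k ∈ C, γ • k = x

variable {X Γ E : Type} [TopologicalSpace X] [Group Γ] [MulAction Γ X] [NormedAddCommGroup E]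
  [NormedSpace ℝ E]

/-- `Z` is a `C¹` vector field on `Γ \ X` with covariant derivative `A`: the function `Z` on `X`,
written in the parallel frame of the developing map, is equivariant, its derivative with respect to
`dev` at each point `x` is `A x`, and `A` is continuous. -/
structure VectorField (dev : X → E) (hol : Γ →* (E ≃ᵃ[ℝ] E)) (Z : X → E) (A : X → E →L[ℝ] E) :
    Prop where
  /-- `Z` is an equivariant field of vectors -/
  equi : ∀ (γ : Γ) (x : X), Z (γ • x) = (hol γ).linear (Z x)
  /-- `A x` is the derivative of `Z` at `x` -/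
  deriv : ∀ x, (fun y => Z y - Z x - A x (dev y - dev x)) =o[𝓝 x] fun y => dev y - dev x
  /-- the derivative is continuous -/
  cont : Continuous A

/-- `z` is a complex eigenvalue of `A`: a complex root of the characteristic polynomial. -/
def Eigenvalue (A : E →ₗ[ℝ] E) [FiniteDimensional ℝ E] (z : ℂ) : Prop :=
  (A.charpoly.map (algebraMap ℝ ℂ)).IsRoot z

/-- `A` is monotone for some inner product `B`: `B (A v) v ≥ 0` for all `v`. -/
def Monotone (A : E →ₗ[ℝ] E) : Prop :=
  ∃ B : E →ₗ[ℝ] E →ₗ[ℝ] ℝ, (∀ v w, B v w = B w v) ∧ (∀ v, v ≠ 0 → 0 < B v v) ∧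
    ∀ v, 0 ≤ B (A v) v

/-- **Theorem.** Let `Z` be a `C¹` vector field on a closed affine manifold with parallel volume
and let `A = ∇Z` be its covariant derivative.
(1) If, for some real `c ≠ 0`, no complex eigenvalue of `A` at any point lies in the open disc
`|z - c| < |c|`, then `A` is nilpotent at every point.
(2) If all complex eigenvalues of `A` at all points have real part `≥ 0` then `A` is nilpotent at
every point.
(3) If the characteristic polynomial of `A` is the same at all points then `A` is nilpotent at every
point.
(4) If `A` is monotone at every point, for some inner product depending on the point, then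
`A = 0`. -/
theorem result [T2Space X] [SecondCountableTopology X] [ConnectedSpace X] [FiniteDimensional ℝ E]
    {dev : X → E} {hol : Γ →* (E ≃ᵃ[ℝ] E)} (D : ClosedSpecial X Γ E dev hol)
    {Z : X → E} {A : X → E →L[ℝ] E} (hZ : VectorField dev hol Z A) :
    (∀ c : ℝ, c ≠ 0 → (∀ x, ∀ z : ℂ, Eigenvalue (A x : E →ₗ[ℝ] E) z → |c| ≤ ‖z - c‖) →
      ∀ x, IsNilpotent (A x : E →ₗ[ℝ] E)) ∧
    ((∀ x, ∀ z : ℂ, Eigenvalue (A x : E →ₗ[ℝ] E) z → 0 ≤ z.re) →
      ∀ x, IsNilpotent (A x : E →ₗ[ℝ] E)) ∧
    ((∀ x y, (A x : E →ₗ[ℝ] E).charpoly = (A y : E →ₗ[ℝ] E).charpoly) →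
      ∀ x, IsNilpotent (A x : E →ₗ[ℝ] E)) ∧
    ((∀ x, Monotone (A x : E →ₗ[ℝ] E)) → ∀ x, A x = 0) := by
  have D' : Pool.Agent.W689.Mk.AffData X Γ E dev hol :=
    ⟨D.loc, D.cont, D.equi, D.unimod, D.pd, D.cc⟩
  have key : (∀ x, ∀ z : ℂ, Eigenvalue (A x : E →ₗ[ℝ] E) z → 0 ≤ z.re) →
      ∀ x, IsNilpotent (A x : E →ₗ[ℝ] E) := fun h x =>
    Pool.Agent.Q138.Mk.nilpotent_of_det (h x)
      (Pool.Agent.Q138.Mk.sign_principle D' hZ.equi hZ.cont hZ.deriv (ε := 1) one_ne_zero (fun y => by
        have h5 : 1 ≤ Pool.Agent.W689.Mk.dt (A y) := Pool.Agent.Q138.Mk.one_le_det (h y)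
        linarith) x)
  refine ⟨fun c hc h x => Pool.Agent.Q138.Mk.disc_principle D' hZ.equi hZ.cont hZ.deriv hc h x,
    key, fun h x => ?_, fun h x => ?_⟩
  · obtain ⟨x0⟩ := (inferInstance : Nonempty X)
    have hconst : ∀ (t : ℝ) (x y : X), Pool.Agent.W689.Mk.dt (t • A x) =
        Pool.Agent.W689.Mk.dt (t • A y) := by
      intro t x y
      by_cases ht : t = 0
      · rw [ht, zero_smul, zero_smul]
      · have h1 : ∀ B : E →ₗ[ℝ] E, LinearMap.det (LinearMap.id + t • B) =
            (-t) ^ Module.finrank ℝ E * B.charpoly.eval (-t⁻¹) := by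
          intro B
          rw [LinearMap.eval_charpoly]
          rw [← LinearMap.det_smul]
          congr 1
          ext v
          simp [Module.algebraMap_end_apply, smul_smul, mul_inv_cancel₀ ht, smul_sub]
        show LinearMap.det (LinearMap.id + t • (A x : E →ₗ[ℝ] E)) =
          LinearMap.det (LinearMap.id + t • (A y : E →ₗ[ℝ] E))
        rw [h1, h1, h x y]
    refine Pool.Agent.Q138.Mk.nilpotent_of_all fun t => ?_
    rcases le_total 1 (Pool.Agent.W689.Mk.dt (t • A x)) with h1 | h1
    · exact Pool.Agent.Q138.Mk.sign_principle D' (Pool.Agent.Q138.Mk.smul_equi hZ.equi t)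
        (A := fun x => t • A x) (hZ.cont.const_smul t)
        (Pool.Agent.Q138.Mk.smul_deriv hZ.deriv t) (ε := 1) one_ne_zero
        (fun y => by have := hconst t x y; linarith) x
    · exact Pool.Agent.Q138.Mk.sign_principle D' (Pool.Agent.Q138.Mk.smul_equi hZ.equi t)
        (A := fun x => t • A x) (hZ.cont.const_smul t)
        (Pool.Agent.Q138.Mk.smul_deriv hZ.deriv t) (ε := -1) (by norm_num)
        (fun y => by have := hconst t x y; linarith) x
  · have h1 := key (fun x => Pool.Agent.Q138.Mk.Mono.rightHalf (h x)) x
    have h2 := Pool.Agent.Q138.Mk.Mono.eq_zero (h x) h1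
    ext v
    exact LinearMap.congr_fun h2 v

end Pool.Agent.Results.MP_df2bd8_gt.SpectrumOfCovariantDerivative
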